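import Pool.Agent.H43.G.R_seed8.H336R2.V.Defs

open Finset

namespace H336V

open H343

namespace TotLog

lemma totient_prod (s : Finset ℕ) (hs : ∀ p ∈ s, p.Prime) :
    Nat.totient (∏ p ∈ s, p) = ∏ p ∈ s, (p - 1) := by
  classical
  induction s using Finset.induction_on with
  | empty => simp
  | insert a s ha ih =>
    rw [prod_insert ha, prod_insert ha, Nat.totient_mul, ih (fun p hp => hs p (mem_insert_of_mem hp)),
      Nat.totient_prime (hs a (mem_insert_self _ _))]
    apply Nat.Coprime.prod_right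
    intro p hp
    rw [Nat.coprime_primes (hs a (mem_insert_self _ _)) (hs p (mem_insert_of_mem hp))]
    rintro rfl
    exact ha hp

/-- `k / φ(k) = ∑_{d ∣ k} μ²(d)/φ(d)` -/
theorem div_totient (k : ℕ) (hk : 1 ≤ k) :
    (k : ℝ) / Nat.totient k = ∑ d ∈ k.divisors.filter Squarefree, (1 : ℝ) / Nat.totient d := by
  have hk0 : k ≠ 0 := by omega
  have htot : (0 : ℝ) < Nat.totient k := by exact_mod_cast Nat.totient_pos.2 hk
  have h1 : (k : ℝ) / Nat.totient k = ∏ p ∈ k.primeFactors, (1 + 1 / ((p : ℝ) - 1)) := by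
    have h2 := Nat.totient_mul_prod_primeFactors k
    have h3 : (Nat.totient k : ℝ) * ∏ p ∈ k.primeFactors, (p : ℝ) =
        k * ∏ p ∈ k.primeFactors, ((p : ℝ) - 1) := by
      have : ((Nat.totient k * ∏ p ∈ k.primeFactors, p : ℕ) : ℝ) =
          ((k * ∏ p ∈ k.primeFactors, (p - 1) : ℕ) : ℝ) := by rw [h2]
      push_cast at this
      rw [this]
      congr 1
      apply prod_congr rfl
      intro p hp
      have := (Nat.prime_of_mem_primeFactors hp).one_le
      push_cast [Nat.cast_sub this]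
      ring
    have h4 : ∏ p ∈ k.primeFactors, ((p : ℝ) - 1) ≠ 0 := by
      rw [prod_ne_zero_iff]
      intro p hp
      have : (1 : ℝ) < p := by exact_mod_cast (Nat.prime_of_mem_primeFactors hp).one_lt
      linarith
    have h5 : ∏ p ∈ k.primeFactors, (1 + 1 / ((p : ℝ) - 1)) =
        (∏ p ∈ k.primeFactors, (p : ℝ)) / ∏ p ∈ k.primeFactors, ((p : ℝ) - 1) := by
      rw [← prod_div_distrib]
      apply prod_congr rfl
      intro p hp
      have : (1 : ℝ) < p := by exact_mod_cast (Nat.prime_of_mem_primeFactors hp).one_lt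
      have h6 : (p : ℝ) - 1 ≠ 0 := by linarith
      field_simp
      ring
    rw [h5, div_eq_div_iff htot.ne' h4]
    linarith
  rw [h1, prod_one_add]
  rw [Nat.sum_divisors_filter_squarefree hk0]
  have hpf : (UniqueFactorizationMonoid.normalizedFactors k).toFinset = k.primeFactors := by
    rw [Nat.factors_eq]
    ext p
    simp [Nat.mem_primeFactorsList, Nat.mem_primeFactors]
  rw [hpf]
  apply sum_congr rfl
  · intro s hs
    rw [mem_powerset] at hs
    have hp : ∀ p ∈ s, p.Prime := fun p hp => Nat.prime_of_mem_primeFactors (hs hp)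
    rw [Finset.prod_val] 
    rw [show (s.prod id) = ∏ p ∈ s, p from rfl, totient_prod s hp]
    push_cast
    rw [one_div, ← prod_inv_distrib]
    apply prod_congr rfl
    intro p hpp
    have := (hp p hpp).one_le
    rw [Nat.cast_sub this]
    simp

theorem div_totient_le (δ : ℝ) (hδ : 0 < δ) : ∃ C : ℝ, 0 < C ∧ ∀ k : ℕ, 1 ≤ k →
    (k : ℝ) / Nat.totient k ≤ C + δ * Real.log k := by
  obtain ⟨C1, hC1, h1⟩ := PhiSum.totient_upper
  obtain ⟨C2, hC2, h2⟩ := div_bound (δ / 2) (by positivity)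
  obtain ⟨c3, hc3, h3⟩ := phi_bound (1 / 2) (by norm_num)
  refine ⟨C1 + 1 + C2 / c3, by positivity, fun k hk => ?_⟩
  have hk0 : (0 : ℝ) < k := by exact_mod_cast hk
  have hk1 : (1 : ℝ) ≤ k := by exact_mod_cast hk
  rw [div_totient k hk]
  set z : ℕ := ⌊(k : ℝ) ^ δ⌋₊ with hz
  have hkδ : 1 ≤ (k : ℝ) ^ δ := Real.one_le_rpow hk1 hδ.le
  have hz1 : 1 ≤ z := by
    rw [hz]; exact Nat.le_floor (by exact_mod_cast hkδ)
  have hzle : (z : ℝ) ≤ (k : ℝ) ^ δ := Nat.floor_le (by positivity)
  have hzlt : (k : ℝ) ^ δ < z + 1 := Nat.lt_floor_add_one _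
  rw [← sum_filter_add_sum_filter_not (k.divisors.filter Squarefree) (fun d => d ≤ z)]
  have e1 : ∑ d ∈ (k.divisors.filter Squarefree).filter (fun d => d ≤ z), (1 : ℝ) / Nat.totient d ≤
      δ * Real.log k + C1 := by
    have : ∑ d ∈ (k.divisors.filter Squarefree).filter (fun d => d ≤ z), (1 : ℝ) / Nat.totient d ≤
        LL 0 z := by
      unfold LL H343.Mod
      apply sum_le_sum_of_subset_of_nonneg
      · intro d hd
        simp only [mem_filter, Nat.mem_divisors] at hd
        simp only [mem_filter, mem_Ioc]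
        exact ⟨⟨Nat.pos_of_dvd_of_pos hd.1.1.1 hk, hd.2⟩, hd.1.2⟩
      · intros; positivity
    refine this.trans ((h1 z hz1).trans ?_)
    have : Real.log z ≤ δ * Real.log k := by
      rw [← Real.log_rpow hk0]
      exact Real.log_le_log (by exact_mod_cast hz1) hzle
    linarith
  have e2 : ∑ d ∈ (k.divisors.filter Squarefree).filter (fun d => ¬ d ≤ z),
      (1 : ℝ) / Nat.totient d ≤ C2 / c3 := by
    have hterm : ∀ d ∈ (k.divisors.filter Squarefree).filter (fun d => ¬ d ≤ z),
        (1 : ℝ) / Nat.totient d ≤ 1 / (c3 * (k : ℝ) ^ (δ / 2)) := by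
      intro d hd
      simp only [mem_filter, Nat.mem_divisors, not_le] at hd
      have hdz : (k : ℝ) ^ δ ≤ d := by
        refine hzlt.le.trans ?_
        exact_mod_cast hd.2
      have hd1 : 1 ≤ d := by omega
      have h4 := h3 d hd1
      apply one_div_le_one_div_of_le (by positivity)
      refine le_trans ?_ h4
      have h5 : (k : ℝ) ^ (δ / 2) ≤ (d : ℝ) ^ (1 - 1 / 2 : ℝ) := by
        calc (k : ℝ) ^ (δ / 2) = ((k : ℝ) ^ δ) ^ (1 - 1 / 2 : ℝ) := by
              rw [← Real.rpow_mul hk0.le]; congr 1; ring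
          _ ≤ (d : ℝ) ^ (1 - 1 / 2 : ℝ) := by
              apply Real.rpow_le_rpow (by positivity) hdz (by norm_num)
      gcongr
    refine (sum_le_sum hterm).trans ?_
    rw [sum_const, nsmul_eq_mul]
    have hcard : ((((k.divisors.filter Squarefree).filter (fun d => ¬ d ≤ z)).card : ℕ) : ℝ) ≤
        C2 * (k : ℝ) ^ (δ / 2) := by
      refine le_trans ?_ (h2 k hk)
      exact_mod_cast (card_filter_le _ _).trans (card_filter_le _ _)
    calc _ ≤ C2 * (k : ℝ) ^ (δ / 2) * (1 / (c3 * (k : ℝ) ^ (δ / 2))) := by gcongr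
      _ = C2 / c3 := by
        have : 0 < (k : ℝ) ^ (δ / 2) := by positivity
        field_simp
  linarith

end TotLog

/-- `φ(k)/k · log k → ∞` -/
theorem totient_log (K : ℝ) : ∃ k0 : ℝ, ∀ k : ℕ, k0 ≤ k →
    K ≤ (Nat.totient k : ℝ) / k * Real.log k := by
  set K' : ℝ := max K 1 with hK'
  have hK0 : 0 < K' := by rw [hK']; positivity
  obtain ⟨C, hC, h⟩ := TotLog.div_totient_le (1 / (2 * K')) (by positivity)
  refine ⟨max 2 (Real.exp (2 * K' * C)), fun k hk => ?_⟩
  have hk2 : (2 : ℝ) ≤ k := (le_max_left _ _).trans hk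
  have hk1 : 1 ≤ k := by
    have : (1 : ℝ) ≤ k := by linarith
    exact_mod_cast this
  have hkE : Real.exp (2 * K' * C) ≤ k := (le_max_right _ _).trans hk
  have hk0 : (0 : ℝ) < k := by linarith
  have hlog : 2 * K' * C ≤ Real.log k := by
    rw [← Real.log_exp (2 * K' * C)]
    exact Real.log_le_log (Real.exp_pos _) hkE
  have htot : (0 : ℝ) < Nat.totient k := by exact_mod_cast Nat.totient_pos.2 hk1
  have h1 := h k hk1
  have hlog0 : 0 < Real.log k := lt_of_lt_of_le (by positivity) hlog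
  have h2 : (k : ℝ) / Nat.totient k ≤ Real.log k / K' := by
    refine h1.trans ?_
    rw [le_div_iff₀ hK0]
    have : (C + 1 / (2 * K') * Real.log k) * K' = (2 * K' * C) / 2 + Real.log k / 2 := by
      field_simp
    rw [this]
    linarith
  refine (le_max_left K 1).trans ?_
  rw [← hK']
  rw [div_le_div_iff₀ htot hK0] at h2
  rw [div_mul_eq_mul_div, le_div_iff₀ hk0]
  linarith

end H336V
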