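import Pool.Agent.H43.G.R_seed8.H343R2.Gauss

open Finset

namespace H336V

open H343

namespace RamanAux

/-- geometric sum of `e(j b/m)` over `j < m` -/
lemma geom (m : ℕ) (hm : 1 ≤ m) (b : ℤ) :
    ∑ j ∈ range m, ex ((j : ℝ) * b / m) = if (m : ℤ) ∣ b then (m : ℂ) else 0 := by
  have : NeZero m := ⟨by omega⟩
  have h1 : ∀ j ∈ range m, ex ((j : ℝ) * b / m) =
      (fun a : ZMod m => ZMod.stdAddChar (a * (b : ZMod m))) (j : ZMod m) := by
    intro j _
    have h2 : ((j : ZMod m) * (b : ZMod m)) = (((j : ℤ) * b : ℤ) : ZMod m) := by push_cast; rfl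
    simp only
    rw [h2, ZMod.stdAddChar_coe]
    unfold ex
    congr 1
    push_cast
    ring
  rw [sum_congr rfl h1, H343.Gauss.sum_range_eq m (fun a => ZMod.stdAddChar (a * (b : ZMod m))),
    AddChar.sum_mulShift (b : ZMod m) (ZMod.isPrimitive_stdAddChar m)]
  simp only [ZMod.card, ZMod.intCast_zmod_eq_zero_iff_dvd]
  push_cast
  rfl

/-- Ramanujan sums -/
lemma raman_eq (k : ℕ) (hk : 1 ≤ k) (b : ℤ) :
    ∑ n ∈ (range k).filter (fun n => n.Coprime k), ex ((n : ℝ) * b / k) =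
      ∑ d ∈ k.divisors, ((ArithmeticFunction.moebius d : ℤ) : ℂ) *
        (if ((k / d : ℕ) : ℤ) ∣ b then ((k / d : ℕ) : ℂ) else 0) := by
  have h1 : ∑ n ∈ (range k).filter (fun n => n.Coprime k), ex ((n : ℝ) * b / k) =
      ∑ n ∈ range k, ∑ d ∈ k.divisors, if d ∣ n then
        ((ArithmeticFunction.moebius d : ℤ) : ℂ) * ex ((n : ℝ) * b / k) else 0 := by
    rw [sum_filter]
    apply sum_congr rfl
    intro n _
    have h2 := H343.Gauss.coprime_indicator n k hk
    rw [sum_filter] at h2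
    have h3 : (if n.Coprime k then ex ((n : ℝ) * b / k) else 0) =
        (if n.Coprime k then (1 : ℂ) else 0) * ex ((n : ℝ) * b / k) := by
      split_ifs <;> simp
    rw [h3, h2, sum_mul]
    apply sum_congr rfl
    intro d _
    split_ifs <;> simp
  rw [h1, sum_comm]
  apply sum_congr rfl
  intro d hd
  rw [Nat.mem_divisors] at hd
  obtain ⟨e, he⟩ := hd.1
  have hd0 : 1 ≤ d := Nat.one_le_iff_ne_zero.mpr (by rintro rfl; simp at he; omega)
  have he0 : 1 ≤ e := Nat.one_le_iff_ne_zero.mpr (by rintro rfl; simp at he; omega)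
  have hkd : k / d = e := by rw [he]; exact Nat.mul_div_cancel_left e (by omega)
  rw [hkd, ← sum_filter, ← mul_sum]
  congr 1
  have h4 := H343.Gauss.sum_multiples d e hd0 (fun n => ex ((n : ℝ) * b / k))
  rw [← he] at h4
  rw [h4, ← geom e he0 b]
  apply sum_congr rfl
  intro j _
  congr 1
  have hd1 : (d : ℝ) ≠ 0 := by positivity
  have he1 : (e : ℝ) ≠ 0 := by positivity
  rw [he]
  push_cast
  field_simp

end RamanAux

theorem raman (k : ℕ) (hk : 1 ≤ k) (b : ℤ) :
    ‖∑ n ∈ (range k).filter (fun n => n.Coprime k), ex ((n : ℝ) * b / k)‖ ≤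
      ∑ d ∈ k.divisors.filter (fun d : ℕ => (d : ℤ) ∣ b), (d : ℝ) := by
  rw [RamanAux.raman_eq k hk b]
  calc ‖∑ d ∈ k.divisors, ((ArithmeticFunction.moebius d : ℤ) : ℂ) *
        (if ((k / d : ℕ) : ℤ) ∣ b then ((k / d : ℕ) : ℂ) else 0)‖
      ≤ ∑ d ∈ k.divisors, (fun e : ℕ => if (e : ℤ) ∣ b then (e : ℝ) else 0) (k / d) := by
        refine (norm_sum_le _ _).trans (sum_le_sum ?_)
        intro d _
        rw [norm_mul]
        have h1 : ‖((ArithmeticFunction.moebius d : ℤ) : ℂ)‖ ≤ 1 := by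
          rw [Complex.norm_intCast]
          exact_mod_cast ArithmeticFunction.abs_moebius_le_one
        have h2 : ‖(if ((k / d : ℕ) : ℤ) ∣ b then ((k / d : ℕ) : ℂ) else 0)‖ =
            (fun e : ℕ => if (e : ℤ) ∣ b then (e : ℝ) else 0) (k / d) := by
          simp only
          split_ifs <;> simp
        rw [h2]
        have h3 : 0 ≤ (fun e : ℕ => if (e : ℤ) ∣ b then (e : ℝ) else 0) (k / d) := by
          simp only
          split_ifs <;> positivity
        nlinarith
    _ = ∑ d ∈ k.divisors, (fun e : ℕ => if (e : ℤ) ∣ b then (e : ℝ) else 0) d :=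
        Nat.sum_div_divisors k (fun e : ℕ => if (e : ℤ) ∣ b then (e : ℝ) else 0)
    _ = ∑ d ∈ k.divisors.filter (fun d : ℕ => (d : ℤ) ∣ b), (d : ℝ) := by
        rw [sum_filter]

end H336V
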