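import Pool.Agent.H43.G.R_seed8.H343R2.Key
import Pool.Agent.H43.G.R_seed8.H343R2.PhiSum
import Pool.Agent.H43.G.R_seed8.H343R2.Pnt

open Finset MeasureTheory

namespace H336V

open H343

/-- sharp prime sum, terms coprime to `m` -/
noncomputable def psiCm (y m : ℕ) {q : ℕ} (χ : DirichletCharacter ℂ q) : ℂ :=
  ∑ n ∈ (Icc 1 y).filter (fun n => n.Coprime m),
    (ArithmeticFunction.vonMangoldt n : ℂ) * χ (n : ZMod q)

/-- sharp prime sum -/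
noncomputable def psiC (y : ℕ) {q : ℕ} (χ : DirichletCharacter ℂ q) : ℂ :=
  ∑ n ∈ Icc 1 y, (ArithmeticFunction.vonMangoldt n : ℂ) * χ (n : ZMod q)

/-- numerators with a complex weight -/
noncomputable def KKc (l : ℝ → ℂ) (Y : ℝ) (N : ℕ) {q : ℕ} (χ : DirichletCharacter ℂ q) : ℂ :=
  ∑ a ∈ Icc 1 N, χ (a : ZMod q) * l (Real.log (a / (q * Y)))

/-- numerators with a complex weight, modulus `q m` -/
noncomputable def KKcm (l : ℝ → ℂ) (Y : ℝ) (N m : ℕ) {q : ℕ} (χ : DirichletCharacter ℂ q) : ℂ :=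
  ∑ a ∈ (Icc 1 N).filter (fun a => a.Coprime m), χ (a : ZMod q) *
    l (Real.log (a / ((q * m : ℕ) * Y)))

/-- sharp bilinear form attached to `α, β` -/
noncomputable def TTs (y m : ℕ) (α β : ℕ → ℂ) {q : ℕ} (χ : DirichletCharacter ℂ q) : ℂ :=
  ∑ n ∈ (Icc 1 y).filter (fun n => n.Coprime m),
    (∑ i ∈ n.divisorsAntidiagonal, α i.1 * β i.2) * χ (n : ZMod q)

/-- complex test functions with uniform bound `M` -/
structure CTest (B M : ℝ) (l : ℝ → ℂ) : Prop where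
  diff : ContDiff ℝ 1 l
  supp : ∀ v, B ≤ |v| → l v = 0
  bd : ∀ v, ‖l v‖ ≤ M
  var : ∫ v, ‖deriv l v‖ ≤ M
  sep : ∃ F : ℝ → ℂ, Continuous F ∧ Integrable F ∧ (∫ ξ, ‖F ξ‖) ≤ M ∧
    ∀ v : ℝ, l v = ∫ ξ, F ξ * ex (ξ * v)

/-- admissible `x, Y`; application `x = X`, `Y = k / X`, `x Y = k` the modulus -/
structure RangeV (ε x Y : ℝ) : Prop where
  hx : 0 < x
  hY : 0 < Y
  hY1 : Y ≤ 1
  h1 : 1 ≤ x * Y
  hhigh : x ≤ (x * Y) ^ (3 / 2 - ε)

structure CutsV (ε B x Y : ℝ) (Q R N : ℕ) : Prop where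
  hQ1 : (x * Y) ^ (4 * ε) ≤ Q
  hQ2 : (x * Y) ^ (4 * ε) / Y ≤ Q
  hR : (R : ℝ) ≤ (x * Y) ^ (1 / 2 - ε)
  hN : Real.exp B * R * Y ≤ N

/-- inverse of `q` modulo `k` as a natural number -/
noncomputable def inv (k q : ℕ) : ℕ := ((q : ZMod k)⁻¹).val

/-- moduli: squarefree, in `(Q,R]`, coprime to `k` -/
noncomputable def ModK (k Q R : ℕ) : Finset ℕ := (Mod Q R).filter (fun q => q.Coprime k)

noncomputable def LLK (k Q R : ℕ) : ℝ := ∑ q ∈ ModK k Q R, (1 : ℝ) / Nat.totient q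

/-- coefficients of the test vector -/
noncomputable def co (lam : ℝ → ℝ) (Y : ℝ) (q a : ℕ) : ℂ :=
  ((((ArithmeticFunction.moebius q : ℤ) : ℝ) / (Nat.totient q : ℝ) *
    lam (Real.log (a / (q * Y))) : ℝ) : ℂ) * ex (-(a / (q * Y)) / 2)

/-- the test vector (a `k`-periodic function of `n`) -/
noncomputable def FF (lam : ℝ → ℝ) (Y : ℝ) (k Q R N : ℕ) (n : ℕ) : ℂ :=
  ∑ q ∈ ModK k Q R, ∑ a ∈ (Icc 1 N).filter (fun a => a.Coprime q),
    co lam Y q a * ex ((n : ℝ) * ((a * inv k q : ℕ) : ℝ) / k)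

/-- `ψ(X; k, A)` -/
noncomputable def psiA (X : ℝ) (k A : ℕ) : ℝ :=
  ∑ n ∈ (Icc 1 ⌊X⌋₊).filter (fun n => n ≡ A [MOD k]), ArithmeticFunction.vonMangoldt n

/-- the variance over the reduced residue classes -/
noncomputable def GV (X : ℝ) (k : ℕ) : ℝ :=
  ∑ A ∈ (range k).filter (fun A => A.Coprime k), (psiA X k A - X / Nat.totient k) ^ 2

end H336V
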